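import Pool.Agent.H24.AB.Defs
import Pool.Agent.H21.BV.Fej

/-!
# [H99 EL GE]  geometric sums of exponentials, Abel summation for them
-/

set_option autoImplicit false

namespace Pool.Agent.H99.EL

open Finset Pool.Agent.H24.AB

theorem ee_eq (t : ℝ) : ee t = Pool.Agent.H21.BV.ee t := by
  unfold ee Pool.Agent.H21.BV.ee
  push_cast
  rfl

theorem ee_add (s t : ℝ) : ee (s + t) = ee s * ee t := by
  rw [ee_eq, ee_eq, ee_eq, Pool.Agent.H21.BV.ee_add]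

theorem norm_ee (t : ℝ) : ‖ee t‖ = 1 := by
  rw [ee_eq, Pool.Agent.H21.BV.norm_ee]

theorem ee_nat_int (x : ℕ) (k : ℤ) (t : ℝ) : ee ((x : ℝ) * (k + t)) = ee ((x : ℝ) * t) := by
  have h1 : (x : ℝ) * (k + t) = (((x : ℤ) * k : ℤ) : ℝ) + x * t := by push_cast; ring
  rw [h1, ee_add, ee_eq, Pool.Agent.H21.BV.ee_int, one_mul]

/-- a sum over an interval is at most `1/(2 dist)` -/
theorem geo_ee (A B : ℕ) (k : ℤ) (t : ℝ) (ht : |t| ≤ 1 / 2) (h0 : t ≠ 0) :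
    ‖∑ x ∈ Ico A B, ee ((x : ℝ) * (k + t))‖ ≤ 1 / (2 * |t|) := by
  have htp : 0 < |t| := abs_pos.2 h0
  have hlow : 4 * |t| ≤ ‖ee t - 1‖ := by
    rw [ee_eq]
    exact Pool.Agent.H21.BV.fej_low t ht
  have hne : ee t ≠ 1 := by
    intro h
    rw [h, sub_self, norm_zero] at hlow
    linarith
  have hpow : ∀ x : ℕ, ee ((x : ℝ) * (k + t)) = ee t ^ x := by
    intro x
    rw [ee_nat_int, ee_eq, ee_eq, Pool.Agent.H21.BV.fej_pow]
  rw [Finset.sum_congr rfl fun x _ => hpow x]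
  rcases le_or_gt A B with hAB | hAB
  · rw [geom_sum_Ico hne hAB, norm_div]
    have hn : ‖ee t ^ B - ee t ^ A‖ ≤ 2 := by
      refine (norm_sub_le _ _).trans ?_
      rw [norm_pow, norm_pow, norm_ee, one_pow, one_pow]
      norm_num
    have hd : 0 < ‖ee t - 1‖ := lt_of_lt_of_le (by positivity) hlow
    rw [div_le_div_iff₀ hd (by positivity)]
    nlinarith [hn, hlow, norm_nonneg (ee t ^ B - ee t ^ A)]
  · rw [Finset.Ico_eq_empty (by omega), Finset.sum_empty, norm_zero]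
    positivity

/-- the same with the distance to the nearest integer -/
theorem geo_rd (A B : ℕ) (α : ℝ) (h0 : α - round α ≠ 0) :
    ‖∑ x ∈ Ico A B, ee ((x : ℝ) * α)‖ ≤ 1 / (2 * |α - round α|) := by
  have h := geo_ee A B (round α) (α - round α) (abs_sub_round α) h0
  have e : ((round α : ℤ) : ℝ) + (α - round α) = α := by ring
  rwa [e] at h

private theorem abel_aux (f : ℕ → ℂ) (v : ℕ → ℝ) (A : ℕ) (M : ℝ) (N : ℕ)
    (hm : ∀ n, A ≤ n → n < A + N → v (n + 1) ≤ v n) (hM : ∀ y ≤ A + N + 1, ‖∑ x ∈ Ico A y, f x‖ ≤ M) :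
    ‖∑ x ∈ Ico A (A + N + 1), ((v x : ℝ) : ℂ) * f x - ((v (A + N) : ℝ) : ℂ) * ∑ x ∈ Ico A (A + N + 1), f x‖ ≤
      (v A - v (A + N)) * M := by
  induction N with
  | zero =>
    simp
  | succ N ih =>
    have ih' := ih (fun n h1 h2 => hm n h1 (by omega)) (fun y hy => hM y (by omega))
    have s1 : ∑ x ∈ Ico A (A + (N + 1) + 1), ((v x : ℝ) : ℂ) * f x =
        ∑ x ∈ Ico A (A + N + 1), ((v x : ℝ) : ℂ) * f x + ((v (A + N + 1) : ℝ) : ℂ) * f (A + N + 1) := by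
      rw [show A + (N + 1) + 1 = (A + N + 1) + 1 by omega]
      exact Finset.sum_Ico_succ_top (by omega) _
    have s2 : ∑ x ∈ Ico A (A + (N + 1) + 1), f x = ∑ x ∈ Ico A (A + N + 1), f x + f (A + N + 1) := by
      rw [show A + (N + 1) + 1 = (A + N + 1) + 1 by omega]
      exact Finset.sum_Ico_succ_top (by omega) _
    have e1 : ∑ x ∈ Ico A (A + (N + 1) + 1), ((v x : ℝ) : ℂ) * f x -
        ((v (A + (N + 1)) : ℝ) : ℂ) * ∑ x ∈ Ico A (A + (N + 1) + 1), f x =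
        (∑ x ∈ Ico A (A + N + 1), ((v x : ℝ) : ℂ) * f x - ((v (A + N) : ℝ) : ℂ) * ∑ x ∈ Ico A (A + N + 1), f x) +
        (((v (A + N) - v (A + (N + 1)) : ℝ)) : ℂ) * ∑ x ∈ Ico A (A + N + 1), f x := by
      rw [s1, s2, show A + (N + 1) = A + N + 1 by omega]
      push_cast
      ring
    rw [e1]
    refine (norm_add_le _ _).trans ?_
    have h2 : 0 ≤ v (A + N) - v (A + (N + 1)) := by
      have := hm (A + N) (by omega) (by omega)
      rw [show A + (N + 1) = A + N + 1 by omega]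
      linarith
    have h3 : ‖(((v (A + N) - v (A + (N + 1)) : ℝ)) : ℂ) * ∑ x ∈ Ico A (A + N + 1), f x‖ ≤
        (v (A + N) - v (A + (N + 1))) * M := by
      rw [norm_mul, Complex.norm_real, Real.norm_eq_abs, abs_of_nonneg h2]
      exact mul_le_mul_of_nonneg_left (hM _ (by omega)) h2
    calc _ ≤ (v A - v (A + N)) * M + (v (A + N) - v (A + (N + 1))) * M := add_le_add ih' h3
      _ = (v A - v (A + (N + 1))) * M := by ring

/-- Abel summation, nonincreasing nonnegative weights -/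
theorem abel_anti (f : ℕ → ℂ) (v : ℕ → ℝ) (A B : ℕ) (M : ℝ) (hM0 : 0 ≤ M) (hv0 : ∀ n, A ≤ n → n < B → 0 ≤ v n)
    (hv1 : ∀ n, A ≤ n → n < B → v n ≤ 1)
    (hm : ∀ n, A ≤ n → n + 1 < B → v (n + 1) ≤ v n) (hM : ∀ y ≤ B, ‖∑ x ∈ Ico A y, f x‖ ≤ M) :
    ‖∑ x ∈ Ico A B, ((v x : ℝ) : ℂ) * f x‖ ≤ M := by
  rcases Nat.lt_or_ge A B with hAB | hAB
  swap
  · rw [Finset.Ico_eq_empty (by omega), Finset.sum_empty, norm_zero]
    exact hM0
  obtain ⟨N, rfl⟩ : ∃ N, B = A + N + 1 := ⟨B - A - 1, by omega⟩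
  have h1 := abel_aux f v A M N (fun n h1 h2 => hm n h1 (by omega)) (fun y hy => hM y hy)
  have h2 := hv0 (A + N) (by omega) (by omega)
  have h3 : ‖((v (A + N) : ℝ) : ℂ) * ∑ x ∈ Ico A (A + N + 1), f x‖ ≤ v (A + N) * M := by
    rw [norm_mul, Complex.norm_real, Real.norm_eq_abs, abs_of_nonneg h2]
    exact mul_le_mul_of_nonneg_left (hM _ le_rfl) h2
  have h4 : ‖∑ x ∈ Ico A (A + N + 1), ((v x : ℝ) : ℂ) * f x‖ ≤
      (v A - v (A + N)) * M + v (A + N) * M := by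
    have e : ∑ x ∈ Ico A (A + N + 1), ((v x : ℝ) : ℂ) * f x =
        (∑ x ∈ Ico A (A + N + 1), ((v x : ℝ) : ℂ) * f x - ((v (A + N) : ℝ) : ℂ) * ∑ x ∈ Ico A (A + N + 1), f x) +
        ((v (A + N) : ℝ) : ℂ) * ∑ x ∈ Ico A (A + N + 1), f x := by ring
    rw [e]
    exact (norm_add_le _ _).trans (add_le_add h1 h3)
  have h5 : v A ≤ 1 := hv1 A le_rfl (by omega)
  calc ‖∑ x ∈ Ico A (A + N + 1), ((v x : ℝ) : ℂ) * f x‖ ≤ v A * M := by linarith
    _ ≤ 1 * M := mul_le_mul_of_nonneg_right h5 hM0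
    _ = M := one_mul M

end Pool.Agent.H99.EL
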