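import Pool.Agent.H99.GC.Defs
import Pool.Agent.H21.BV.Gau
import Pool.Agent.H24.AB.Defs

/-!
# [H99 EL GS]  exponentials at `a/q`, `a/q + b/r` through Gauss sums
-/

set_option autoImplicit false

namespace Pool.Agent.H99.EL

open Finset Pool.Agent.H24.AB

theorem ee_std (q : ℕ) [NeZero q] (n a : ℕ) :
    ee ((n : ℝ) * ((a : ℝ) / q)) = (ZMod.stdAddChar (N := q)) ((n : ZMod q) * (a : ZMod q)) := by
  have h1 : (n : ZMod q) * (a : ZMod q) = (((n * a : ℕ) : ℤ) : ZMod q) := by push_cast; rfl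
  rw [h1, ZMod.stdAddChar_coe]
  unfold ee
  congr 1
  push_cast
  ring

theorem gs_exp {q : ℕ} [Fact q.Prime] (u : ZMod q) (hu : u ≠ 0) :
    ((q : ℂ) - 1) * (ZMod.stdAddChar (N := q)) u =
      ∑ χ : DirichletCharacter ℂ q, χ⁻¹ u * gaussSum χ (ZMod.stdAddChar (N := q)) := by
  classical
  have hq : (q.totient : ℂ) = (q : ℂ) - 1 := by
    rw [Nat.totient_prime Fact.out, Nat.cast_sub (Fact.out : q.Prime).one_lt.le, Nat.cast_one]
  have huu : IsUnit u := isUnit_iff_ne_zero.2 hu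
  have h1 : ∀ χ : DirichletCharacter ℂ q, χ⁻¹ u * gaussSum χ (ZMod.stdAddChar (N := q)) =
      ∑ b : ZMod q, (χ u⁻¹ * χ b) * (ZMod.stdAddChar (N := q)) b := by
    intro χ
    unfold gaussSum
    rw [Finset.mul_sum]
    refine Finset.sum_congr rfl fun b _ => ?_
    obtain ⟨w, rfl⟩ := huu
    rw [Pool.Agent.H21.BV.gau_char_unit]
    ring
  rw [Finset.sum_congr rfl fun χ _ => h1 χ, Finset.sum_comm]
  have h2 : ∀ b : ZMod q, ∑ χ : DirichletCharacter ℂ q, (χ u⁻¹ * χ b) * (ZMod.stdAddChar (N := q)) b =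
      if u = b then ((q : ℂ) - 1) * (ZMod.stdAddChar (N := q)) b else 0 := by
    intro b
    rw [← Finset.sum_mul, DirichletCharacter.sum_char_inv_mul_char_eq ℂ huu b]
    split_ifs
    · rw [hq]
    · rw [zero_mul]
  rw [Finset.sum_congr rfl fun b _ => h2 b, Finset.sum_ite_eq Finset.univ u]
  simp

theorem gs_norm {q : ℕ} [Fact q.Prime] (χ : DirichletCharacter ℂ q) (hχ : χ ≠ 1) :
    ‖gaussSum χ (ZMod.stdAddChar (N := q))‖ = Real.sqrt q := by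
  have hp : χ.IsPrimitive := by
    rw [DirichletCharacter.isPrimitive_def]
    rcases (Nat.dvd_prime Fact.out).1 χ.conductor_dvd_level with h | h
    · exact absurd (χ.eq_one_iff_conductor_eq_one.2 h) hχ
    · exact h
  have h := Pool.Agent.H21.BV.gauss_norm χ hp
  rw [← h, Real.sqrt_sq (norm_nonneg _)]

theorem gs_one {q : ℕ} [Fact q.Prime] :
    gaussSum (1 : DirichletCharacter ℂ q) (ZMod.stdAddChar (N := q)) = -1 := by
  classical
  unfold gaussSum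
  have h1 : ∑ b : ZMod q, (ZMod.stdAddChar (N := q)) b = 0 := by
    have := AddChar.sum_eq_zero_of_ne_one (ψ := ZMod.stdAddChar (N := q)) ?_
    · exact this
    · intro h
      have h2 : (ZMod.stdAddChar (N := q)).IsPrimitive := ZMod.isPrimitive_stdAddChar q
      have h3 := h2 (a := 1) one_ne_zero
      rw [AddChar.mulShift_one] at h3
      exact h3 h
  have h2 : ∀ b : ZMod q, (1 : DirichletCharacter ℂ q) b * (ZMod.stdAddChar (N := q)) b =
      (ZMod.stdAddChar (N := q)) b - (if b = 0 then (1 : ℂ) else 0) := by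
    intro b
    split_ifs with hb
    · rw [hb, MulChar.map_zero, zero_mul, AddChar.map_zero_eq_one, sub_self]
    · rw [MulChar.one_apply (isUnit_iff_ne_zero.2 hb), one_mul, sub_zero]
  rw [Finset.sum_congr rfl fun b _ => h2 b, Finset.sum_sub_distrib, h1, Finset.sum_ite_eq']
  simp

open Classical in
theorem gs_erase {q : ℕ} [NeZero q] : (univ : Finset (DirichletCharacter ℂ q)).erase 1 =
    (univ : Finset (DirichletCharacter ℂ q)).filter (fun χ => χ ≠ 1) := by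
  ext χ
  simp

open Classical in
/-- one modulus: the exponential at `a/q` is its mean plus nontrivial characters -/
theorem gs_single {q : ℕ} (hq : q.Prime) (N : Finset ℕ) (c : ℕ → ℂ)
    (hc : ∀ n ∈ N, c n ≠ 0 → (n : ZMod q) ≠ 0) (a : ℕ) (ha : (a : ZMod q) ≠ 0) :
    ‖∑ n ∈ N, c n * ee ((n : ℝ) * ((a : ℝ) / q)) + 1 / ((q : ℂ) - 1) * ∑ n ∈ N, c n‖ ≤
      Real.sqrt q / ((q : ℝ) - 1) *
        ∑ χ ∈ (univ : Finset (DirichletCharacter ℂ q)).filter (fun χ => χ ≠ 1), ‖∑ n ∈ N, c n * χ (n : ZMod q)‖ := by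
  haveI : Fact q.Prime := ⟨hq⟩
  have hq1 : (0 : ℝ) < (q : ℝ) - 1 := by
    have : (1 : ℝ) < q := by exact_mod_cast hq.one_lt
    linarith
  have hq1c : ((q : ℂ) - 1) ≠ 0 := by
    have : (((q : ℝ) - 1 : ℝ) : ℂ) ≠ 0 := by exact_mod_cast hq1.ne'
    push_cast at this
    exact this
  have key : ∀ n ∈ N, c n * ee ((n : ℝ) * ((a : ℝ) / q)) = 1 / ((q : ℂ) - 1) *
      ∑ χ : DirichletCharacter ℂ q, (χ⁻¹ (a : ZMod q) * gaussSum χ (ZMod.stdAddChar (N := q))) *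
        (c n * χ⁻¹ (n : ZMod q)) := by
    intro n hn
    by_cases h0 : c n = 0
    · simp [h0]
    · have hn0 := hc n hn h0
      have h1 := gs_exp ((n : ZMod q) * (a : ZMod q)) (mul_ne_zero hn0 ha)
      rw [ee_std]
      have h2 : (ZMod.stdAddChar (N := q)) ((n : ZMod q) * (a : ZMod q)) = 1 / ((q : ℂ) - 1) *
          ∑ χ : DirichletCharacter ℂ q, χ⁻¹ ((n : ZMod q) * (a : ZMod q)) *
            gaussSum χ (ZMod.stdAddChar (N := q)) := by
        rw [← h1]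
        field_simp
      rw [h2, mul_left_comm, Finset.mul_sum]
      congr 1
      refine Finset.sum_congr rfl fun χ _ => ?_
      rw [map_mul]
      ring
  have hS : ∑ n ∈ N, c n * ee ((n : ℝ) * ((a : ℝ) / q)) = 1 / ((q : ℂ) - 1) *
      ∑ χ : DirichletCharacter ℂ q, (χ⁻¹ (a : ZMod q) * gaussSum χ (ZMod.stdAddChar (N := q))) *
        ∑ n ∈ N, c n * χ⁻¹ (n : ZMod q) := by
    rw [Finset.sum_congr rfl key, ← Finset.mul_sum, Finset.sum_comm]
    congr 1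
    refine Finset.sum_congr rfl fun χ _ => ?_
    rw [Finset.mul_sum]
  have h1 : (1 : DirichletCharacter ℂ q)⁻¹ = 1 := inv_one
  have hone : ∑ n ∈ N, c n * (1 : DirichletCharacter ℂ q)⁻¹ (n : ZMod q) = ∑ n ∈ N, c n := by
    refine Finset.sum_congr rfl fun n hn => ?_
    by_cases h0 : c n = 0
    · simp [h0]
    · rw [h1, MulChar.one_apply (isUnit_iff_ne_zero.2 (hc n hn h0)), mul_one]
  have hsplit : ∑ χ : DirichletCharacter ℂ q, (χ⁻¹ (a : ZMod q) * gaussSum χ (ZMod.stdAddChar (N := q))) *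
        ∑ n ∈ N, c n * χ⁻¹ (n : ZMod q) = - ∑ n ∈ N, c n +
      ∑ χ ∈ (univ : Finset (DirichletCharacter ℂ q)).filter (fun χ => χ ≠ 1),
        (χ⁻¹ (a : ZMod q) * gaussSum χ (ZMod.stdAddChar (N := q))) * ∑ n ∈ N, c n * χ⁻¹ (n : ZMod q) := by
    rw [← Finset.add_sum_erase Finset.univ _ (Finset.mem_univ (1 : DirichletCharacter ℂ q)), hone, gs_one, h1,
      MulChar.one_apply (isUnit_iff_ne_zero.2 ha), gs_erase]
    ring
  rw [hS, hsplit, mul_add]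
  have h3 : 1 / ((q : ℂ) - 1) * -∑ n ∈ N, c n + 1 / ((q : ℂ) - 1) *
      ∑ χ ∈ (univ : Finset (DirichletCharacter ℂ q)).filter (fun χ => χ ≠ 1),
        (χ⁻¹ (a : ZMod q) * gaussSum χ (ZMod.stdAddChar (N := q))) * ∑ n ∈ N, c n * χ⁻¹ (n : ZMod q) +
      1 / ((q : ℂ) - 1) * ∑ n ∈ N, c n = 1 / ((q : ℂ) - 1) *
      ∑ χ ∈ (univ : Finset (DirichletCharacter ℂ q)).filter (fun χ => χ ≠ 1),
        (χ⁻¹ (a : ZMod q) * gaussSum χ (ZMod.stdAddChar (N := q))) * ∑ n ∈ N, c n * χ⁻¹ (n : ZMod q) := by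
    ring
  rw [h3, norm_mul]
  have h4 : ‖1 / ((q : ℂ) - 1)‖ = 1 / ((q : ℝ) - 1) := by
    have : ((q : ℂ) - 1) = (((q : ℝ) - 1 : ℝ) : ℂ) := by push_cast; rfl
    rw [this, norm_div, norm_one, Complex.norm_real, Real.norm_eq_abs, abs_of_pos hq1]
  rw [h4]
  have h5 : ‖∑ χ ∈ (univ : Finset (DirichletCharacter ℂ q)).filter (fun χ => χ ≠ 1),
      (χ⁻¹ (a : ZMod q) * gaussSum χ (ZMod.stdAddChar (N := q))) * ∑ n ∈ N, c n * χ⁻¹ (n : ZMod q)‖ ≤
      Real.sqrt q * ∑ χ ∈ (univ : Finset (DirichletCharacter ℂ q)).filter (fun χ => χ ≠ 1),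
        ‖∑ n ∈ N, c n * χ (n : ZMod q)‖ := by
    refine (norm_sum_le _ _).trans ?_
    have h6 : ∑ χ ∈ (univ : Finset (DirichletCharacter ℂ q)).filter (fun χ => χ ≠ 1), ‖∑ n ∈ N, c n * χ (n : ZMod q)‖ =
        ∑ χ ∈ (univ : Finset (DirichletCharacter ℂ q)).filter (fun χ => χ ≠ 1), ‖∑ n ∈ N, c n * χ⁻¹ (n : ZMod q)‖ := by
      refine Finset.sum_nbij' (fun χ => χ⁻¹) (fun χ => χ⁻¹) ?_ ?_ ?_ ?_ ?_
      · intro χ hχ
        rw [mem_filter] at hχ ⊢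
        exact ⟨mem_univ _, fun h => hχ.2 (inv_eq_one.1 h)⟩
      · intro χ hχ
        rw [mem_filter] at hχ ⊢
        exact ⟨mem_univ _, fun h => hχ.2 (inv_eq_one.1 h)⟩
      · intro χ _
        exact inv_inv χ
      · intro χ _
        exact inv_inv χ
      · intro χ _
        rw [inv_inv]
    rw [h6, Finset.mul_sum]
    refine Finset.sum_le_sum fun χ hχ => ?_
    rw [norm_mul, norm_mul, gs_norm χ (mem_filter.1 hχ).2]
    refine mul_le_mul_of_nonneg_right ?_ (norm_nonneg _)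
    calc ‖χ⁻¹ (a : ZMod q)‖ * Real.sqrt q ≤ 1 * Real.sqrt q :=
          mul_le_mul_of_nonneg_right (DirichletCharacter.norm_le_one _ _) (Real.sqrt_nonneg _)
      _ = Real.sqrt q := one_mul _
  calc 1 / ((q : ℝ) - 1) * ‖∑ χ ∈ (univ : Finset (DirichletCharacter ℂ q)).filter (fun χ => χ ≠ 1),
      (χ⁻¹ (a : ZMod q) * gaussSum χ (ZMod.stdAddChar (N := q))) * ∑ n ∈ N, c n * χ⁻¹ (n : ZMod q)‖
      ≤ 1 / ((q : ℝ) - 1) * (Real.sqrt q * ∑ χ ∈ (univ : Finset (DirichletCharacter ℂ q)).filter (fun χ => χ ≠ 1),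
        ‖∑ n ∈ N, c n * χ (n : ZMod q)‖) := mul_le_mul_of_nonneg_left h5 (by positivity)
    _ = Real.sqrt q / ((q : ℝ) - 1) * ∑ χ ∈ (univ : Finset (DirichletCharacter ℂ q)).filter (fun χ => χ ≠ 1),
        ‖∑ n ∈ N, c n * χ (n : ZMod q)‖ := by ring
    _ = _ := by
      congr 1
      refine Finset.sum_congr ?_ (fun _ _ => rfl)
      ext χ
      simp

private theorem split_one {q : ℕ} [NeZero q] (f : DirichletCharacter ℂ q → ℝ) [DecidableEq (DirichletCharacter ℂ q)]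
    (F : Finset (DirichletCharacter ℂ q)) (hF : ∀ χ, χ ∈ F ↔ χ ≠ 1) :
    ∑ χ : DirichletCharacter ℂ q, f χ = f 1 + ∑ χ ∈ F, f χ := by
  rw [← Finset.add_sum_erase Finset.univ _ (Finset.mem_univ (1 : DirichletCharacter ℂ q))]
  congr 1
  refine Finset.sum_congr ?_ (fun _ _ => rfl)
  ext χ
  simp [hF]

private theorem two_bound {q r : ℕ} [NeZero q] [NeZero r] [DecidableEq (DirichletCharacter ℂ q)]
    [DecidableEq (DirichletCharacter ℂ r)] (A : DirichletCharacter ℂ q → ℂ) (B : DirichletCharacter ℂ r → ℂ)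
    (u v : ℝ) (hu : 0 ≤ u) (hv : 0 ≤ v)
    (hA1 : ‖A 1‖ ≤ 1) (hB1 : ‖B 1‖ ≤ 1) (hA : ∀ χ, χ ≠ 1 → ‖A χ‖ ≤ u) (hB : ∀ ψ, ψ ≠ 1 → ‖B ψ‖ ≤ v)
    (T : DirichletCharacter ℂ q → DirichletCharacter ℂ r → ℂ)
    (F : Finset (DirichletCharacter ℂ q)) (hF : ∀ χ, χ ∈ F ↔ χ ≠ 1)
    (G : Finset (DirichletCharacter ℂ r)) (hG : ∀ ψ, ψ ∈ G ↔ ψ ≠ 1) :
    ‖∑ χ : DirichletCharacter ℂ q, ∑ ψ : DirichletCharacter ℂ r, (A χ * B ψ) * T χ⁻¹ ψ⁻¹‖ ≤
      ‖T 1 1‖ + u * ∑ χ ∈ F, ‖T χ 1‖ + v * ∑ ψ ∈ G, ‖T 1 ψ‖ + u * v * ∑ χ ∈ F, ∑ ψ ∈ G, ‖T χ ψ‖ := by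
  set gq : DirichletCharacter ℂ q → ℝ := fun χ => if χ = 1 then 1 else u with hgq
  set gr : DirichletCharacter ℂ r → ℝ := fun ψ => if ψ = 1 then 1 else v with hgr
  have hq0 : ∀ χ, 0 ≤ gq χ := by
    intro χ
    simp only [hgq]
    split_ifs
    · exact zero_le_one
    · exact hu
  have hA' : ∀ χ, ‖A χ‖ ≤ gq χ := by
    intro χ
    simp only [hgq]
    split_ifs with h
    · rw [h]; exact hA1
    · exact hA χ h
  have hB' : ∀ ψ, ‖B ψ‖ ≤ gr ψ := by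
    intro ψ
    simp only [hgr]
    split_ifs with h
    · rw [h]; exact hB1
    · exact hB ψ h
  have h1 : ‖∑ χ : DirichletCharacter ℂ q, ∑ ψ : DirichletCharacter ℂ r, (A χ * B ψ) * T χ⁻¹ ψ⁻¹‖ ≤
      ∑ χ : DirichletCharacter ℂ q, ∑ ψ : DirichletCharacter ℂ r, gq χ * gr ψ * ‖T χ⁻¹ ψ⁻¹‖ := by
    refine (norm_sum_le _ _).trans (Finset.sum_le_sum fun χ _ => ?_)
    refine (norm_sum_le _ _).trans (Finset.sum_le_sum fun ψ _ => ?_)
    rw [norm_mul, norm_mul]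
    exact mul_le_mul_of_nonneg_right (mul_le_mul (hA' χ) (hB' ψ) (norm_nonneg _) (hq0 χ)) (norm_nonneg _)
  have h2 : ∑ χ : DirichletCharacter ℂ q, ∑ ψ : DirichletCharacter ℂ r, gq χ * gr ψ * ‖T χ⁻¹ ψ⁻¹‖ =
      ∑ χ : DirichletCharacter ℂ q, ∑ ψ : DirichletCharacter ℂ r, gq χ * gr ψ * ‖T χ ψ‖ := by
    rw [← Equiv.sum_comp (Equiv.inv (DirichletCharacter ℂ q))
      (fun χ => ∑ ψ : DirichletCharacter ℂ r, gq χ * gr ψ * ‖T χ ψ‖)]
    refine Finset.sum_congr rfl fun χ _ => ?_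
    rw [← Equiv.sum_comp (Equiv.inv (DirichletCharacter ℂ r))
      (fun ψ => gq ((Equiv.inv (DirichletCharacter ℂ q)) χ) * gr ψ * ‖T ((Equiv.inv (DirichletCharacter ℂ q)) χ) ψ‖)]
    refine Finset.sum_congr rfl fun ψ _ => ?_
    simp only [Equiv.inv_apply, hgq, hgr, inv_eq_one]
  refine h1.trans (le_of_eq ?_)
  rw [h2, split_one _ F hF]
  have h3 : ∀ χ, ∑ ψ : DirichletCharacter ℂ r, gq χ * gr ψ * ‖T χ ψ‖ =
      gq χ * (‖T χ 1‖ + v * ∑ ψ ∈ G, ‖T χ ψ‖) := by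
    intro χ
    rw [split_one _ G hG, mul_add, Finset.mul_sum, Finset.mul_sum]
    congr 1
    · simp [hgr]
    · refine Finset.sum_congr rfl fun ψ hψ => ?_
      simp only [hgr, if_neg ((hG ψ).1 hψ)]
      ring
  rw [h3]
  have h4 : ∑ χ ∈ F, ∑ ψ : DirichletCharacter ℂ r, gq χ * gr ψ * ‖T χ ψ‖ =
      ∑ χ ∈ F, (u * ‖T χ 1‖ + u * v * ∑ ψ ∈ G, ‖T χ ψ‖) := by
    refine Finset.sum_congr rfl fun χ hχ => ?_
    rw [h3]
    simp only [hgq, if_neg ((hF χ).1 hχ)]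
    ring
  rw [h4, Finset.sum_add_distrib, ← Finset.mul_sum, ← Finset.mul_sum]
  simp only [hgq, if_true]
  ring

open Classical in
/-- two moduli -/
theorem gs_two {q r : ℕ} (hq : q.Prime) (hr : r.Prime) (N : Finset ℕ) (c : ℕ → ℂ)
    (hcq : ∀ n ∈ N, c n ≠ 0 → (n : ZMod q) ≠ 0) (hcr : ∀ n ∈ N, c n ≠ 0 → (n : ZMod r) ≠ 0)
    (a b : ℕ) (ha : (a : ZMod q) ≠ 0) (hb : (b : ZMod r) ≠ 0) :
    ‖∑ n ∈ N, c n * (ee ((n : ℝ) * ((a : ℝ) / q)) * ee ((n : ℝ) * ((b : ℝ) / r)))‖ ≤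
      1 / (((q : ℝ) - 1) * ((r : ℝ) - 1)) * (‖∑ n ∈ N, c n‖ +
        Real.sqrt q * ∑ χ ∈ (univ : Finset (DirichletCharacter ℂ q)).filter (fun χ => χ ≠ 1),
          ‖∑ n ∈ N, c n * χ (n : ZMod q)‖ +
        Real.sqrt r * ∑ ψ ∈ (univ : Finset (DirichletCharacter ℂ r)).filter (fun ψ => ψ ≠ 1),
          ‖∑ n ∈ N, c n * ψ (n : ZMod r)‖ +
        Real.sqrt q * Real.sqrt r * ∑ χ ∈ (univ : Finset (DirichletCharacter ℂ q)).filter (fun χ => χ ≠ 1),
          ∑ ψ ∈ (univ : Finset (DirichletCharacter ℂ r)).filter (fun ψ => ψ ≠ 1),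
            ‖∑ n ∈ N, c n * (χ (n : ZMod q) * ψ (n : ZMod r))‖) := by
  haveI : Fact q.Prime := ⟨hq⟩
  haveI : Fact r.Prime := ⟨hr⟩
  have hq1 : (0 : ℝ) < (q : ℝ) - 1 := by
    have : (1 : ℝ) < q := by exact_mod_cast hq.one_lt
    linarith
  have hr1 : (0 : ℝ) < (r : ℝ) - 1 := by
    have : (1 : ℝ) < r := by exact_mod_cast hr.one_lt
    linarith
  have hq1c : ((q : ℂ) - 1) ≠ 0 := by
    have : (((q : ℝ) - 1 : ℝ) : ℂ) ≠ 0 := by exact_mod_cast hq1.ne'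
    push_cast at this
    exact this
  have hr1c : ((r : ℂ) - 1) ≠ 0 := by
    have : (((r : ℝ) - 1 : ℝ) : ℂ) ≠ 0 := by exact_mod_cast hr1.ne'
    push_cast at this
    exact this
  set A : DirichletCharacter ℂ q → ℂ := fun χ => χ⁻¹ (a : ZMod q) * gaussSum χ (ZMod.stdAddChar (N := q)) with hA
  set B : DirichletCharacter ℂ r → ℂ := fun ψ => ψ⁻¹ (b : ZMod r) * gaussSum ψ (ZMod.stdAddChar (N := r)) with hB
  set T : DirichletCharacter ℂ q → DirichletCharacter ℂ r → ℂ :=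
    fun χ ψ => ∑ n ∈ N, c n * (χ (n : ZMod q) * ψ (n : ZMod r)) with hT
  have hee : ∀ (p : ℕ) [Fact p.Prime] (n d : ℕ), ((p : ℂ) - 1) ≠ 0 → (n : ZMod p) ≠ 0 → (d : ZMod p) ≠ 0 →
      ee ((n : ℝ) * ((d : ℝ) / p)) = 1 / ((p : ℂ) - 1) *
        ∑ χ : DirichletCharacter ℂ p, (χ⁻¹ (d : ZMod p) * gaussSum χ (ZMod.stdAddChar (N := p))) *
          χ⁻¹ (n : ZMod p) := by
    intro p _ n d hp hn hd
    have h1 := gs_exp ((n : ZMod p) * (d : ZMod p)) (mul_ne_zero hn hd)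
    rw [ee_std]
    have h2 : (ZMod.stdAddChar (N := p)) ((n : ZMod p) * (d : ZMod p)) = 1 / ((p : ℂ) - 1) *
        ∑ χ : DirichletCharacter ℂ p, χ⁻¹ ((n : ZMod p) * (d : ZMod p)) *
          gaussSum χ (ZMod.stdAddChar (N := p)) := by
      rw [← h1]
      field_simp
    rw [h2]
    congr 1
    refine Finset.sum_congr rfl fun χ _ => ?_
    rw [map_mul]
    ring
  have hS : ∑ n ∈ N, c n * (ee ((n : ℝ) * ((a : ℝ) / q)) * ee ((n : ℝ) * ((b : ℝ) / r))) =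
      1 / (((q : ℂ) - 1) * ((r : ℂ) - 1)) *
        ∑ χ : DirichletCharacter ℂ q, ∑ ψ : DirichletCharacter ℂ r, (A χ * B ψ) * T χ⁻¹ ψ⁻¹ := by
    have h1 : ∀ n ∈ N, c n * (ee ((n : ℝ) * ((a : ℝ) / q)) * ee ((n : ℝ) * ((b : ℝ) / r))) =
        1 / (((q : ℂ) - 1) * ((r : ℂ) - 1)) *
        ∑ χ : DirichletCharacter ℂ q, ∑ ψ : DirichletCharacter ℂ r, (A χ * B ψ) *
          (c n * (χ⁻¹ (n : ZMod q) * ψ⁻¹ (n : ZMod r))) := by
      intro n hn
      by_cases h0 : c n = 0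
      · simp [h0]
      · rw [hee q n a hq1c (hcq n hn h0) ha, hee r n b hr1c (hcr n hn h0) hb]
        have h3 : ∑ χ : DirichletCharacter ℂ q, ∑ ψ : DirichletCharacter ℂ r, (A χ * B ψ) *
            (c n * (χ⁻¹ (n : ZMod q) * ψ⁻¹ (n : ZMod r))) =
            c n * ((∑ χ : DirichletCharacter ℂ q, A χ * χ⁻¹ (n : ZMod q)) *
              ∑ ψ : DirichletCharacter ℂ r, B ψ * ψ⁻¹ (n : ZMod r)) := by
          rw [Finset.sum_mul_sum, Finset.mul_sum]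
          refine Finset.sum_congr rfl fun χ _ => ?_
          rw [Finset.mul_sum]
          refine Finset.sum_congr rfl fun ψ _ => ?_
          ring
        rw [h3]
        simp only [hA, hB]
        field_simp
    rw [Finset.sum_congr rfl h1, ← Finset.mul_sum, Finset.sum_comm]
    congr 1
    refine Finset.sum_congr rfl fun χ _ => ?_
    rw [Finset.sum_comm]
    refine Finset.sum_congr rfl fun ψ _ => ?_
    simp only [hT]
    rw [Finset.mul_sum]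
  rw [hS, norm_mul]
  have h4 : ‖1 / (((q : ℂ) - 1) * ((r : ℂ) - 1))‖ = 1 / (((q : ℝ) - 1) * ((r : ℝ) - 1)) := by
    have : (((q : ℂ) - 1) * ((r : ℂ) - 1)) = ((((q : ℝ) - 1) * ((r : ℝ) - 1) : ℝ) : ℂ) := by push_cast; rfl
    rw [this, norm_div, norm_one, Complex.norm_real, Real.norm_eq_abs, abs_of_pos (mul_pos hq1 hr1)]
  rw [h4]
  refine mul_le_mul_of_nonneg_left ?_ (by positivity)
  have hA1 : ‖A 1‖ ≤ 1 := by
    simp only [hA, gs_one, norm_mul, norm_neg, norm_one, mul_one]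
    exact DirichletCharacter.norm_le_one _ _
  have hB1 : ‖B 1‖ ≤ 1 := by
    simp only [hB, gs_one, norm_mul, norm_neg, norm_one, mul_one]
    exact DirichletCharacter.norm_le_one _ _
  have hAn : ∀ χ, χ ≠ 1 → ‖A χ‖ ≤ Real.sqrt q := by
    intro χ hχ
    simp only [hA]
    rw [norm_mul, gs_norm χ hχ]
    calc ‖χ⁻¹ (a : ZMod q)‖ * Real.sqrt q ≤ 1 * Real.sqrt q :=
          mul_le_mul_of_nonneg_right (DirichletCharacter.norm_le_one _ _) (Real.sqrt_nonneg _)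
      _ = Real.sqrt q := one_mul _
  have hBn : ∀ ψ, ψ ≠ 1 → ‖B ψ‖ ≤ Real.sqrt r := by
    intro ψ hψ
    simp only [hB]
    rw [norm_mul, gs_norm ψ hψ]
    calc ‖ψ⁻¹ (b : ZMod r)‖ * Real.sqrt r ≤ 1 * Real.sqrt r :=
          mul_le_mul_of_nonneg_right (DirichletCharacter.norm_le_one _ _) (Real.sqrt_nonneg _)
      _ = Real.sqrt r := one_mul _
  have key := two_bound A B (Real.sqrt q) (Real.sqrt r) (Real.sqrt_nonneg _) (Real.sqrt_nonneg _) hA1 hB1 hAn hBn T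
    (univ.filter (fun χ => χ ≠ 1)) (by intro χ; simp) (univ.filter (fun ψ => ψ ≠ 1)) (by intro ψ; simp)
  have t11 : T 1 1 = ∑ n ∈ N, c n := by
    simp only [hT]
    refine Finset.sum_congr rfl fun n hn => ?_
    by_cases h0 : c n = 0
    · simp [h0]
    · rw [MulChar.one_apply (isUnit_iff_ne_zero.2 (hcq n hn h0)),
        MulChar.one_apply (isUnit_iff_ne_zero.2 (hcr n hn h0)), mul_one, mul_one]
  have tx1 : ∀ χ, T χ 1 = ∑ n ∈ N, c n * χ (n : ZMod q) := by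
    intro χ
    simp only [hT]
    refine Finset.sum_congr rfl fun n hn => ?_
    by_cases h0 : c n = 0
    · simp [h0]
    · rw [MulChar.one_apply (isUnit_iff_ne_zero.2 (hcr n hn h0)), mul_one]
  have t1x : ∀ ψ, T 1 ψ = ∑ n ∈ N, c n * ψ (n : ZMod r) := by
    intro ψ
    simp only [hT]
    refine Finset.sum_congr rfl fun n hn => ?_
    by_cases h0 : c n = 0
    · simp [h0]
    · rw [MulChar.one_apply (isUnit_iff_ne_zero.2 (hcq n hn h0)), one_mul]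
  simp only [t11, tx1, t1x] at key
  refine key.trans (le_of_eq ?_)
  simp only [hT]
  congr 1
  · congr 1
    · congr 2
      refine Finset.sum_congr ?_ (fun _ _ => rfl)
      ext χ
      simp
    · congr 1
      refine Finset.sum_congr ?_ (fun _ _ => rfl)
      ext χ
      simp
  · congr 1
    refine Finset.sum_congr ?_ (fun χ _ => ?_)
    · ext χ
      simp
    · refine Finset.sum_congr ?_ (fun _ _ => rfl)
      ext χ
      simp

end Pool.Agent.H99.EL
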